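import Mathlib
import Pool.Agent.H853.G2.Sys

/-!
# The Mumford-Tate conjecture for `H ^ 2` with a transcendental part of type `G₂`

Let `X` be a smooth projective surface (or variety) over a field `k` finitely generated over `ℚ` such that
the transcendental part `T` of `H ^ 2 (X) (1)` (or another direct factor of `H ^ 2 (X) (1)`, cut out by
an algebraic correspondence) has rank `7` and its motivic Galois group (its Mumford-Tate group and the
identity components of its `ℓ`-adic monodromy groups, up to the conjecture) is contained in `G₂`: there is
a cross product on `T` (`x × x = 0`, `x × (x × y) = (x, y) x - (x, x) y`) given by an algebraic cycle on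
`X × X × X` (or a motivated cycle).  The Hodge numbers of `T` are `(2, 3, 2)` (so `p_g = 2`, if `T` is the
whole transcendental part), and the Mumford-Tate group of `T` is `G₂` if `T` is an irreducible Hodge
structure; then its Lie algebra consists of the derivations of the cross product.  The period domain of
these Hodge structures is homogeneous under `G₂`, of dimension five, and its horizontal distribution is a
contact distribution (for comparison: in the case `p_g = 1` of K3 type the period domain is a hermitian
symmetric domain, the motives are abelian and one has the theory of Kuga and Satake; here there is no such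
tool).

The representations `ρ ℓ` of `Γ_k` on `T_ℓ = ℚ_ℓ ^ 7` form a `CrossSystem`: continuous, by automorphisms of
a cross product `c ℓ` (split or not, for a symmetric form `J ℓ`); and there is a homomorphism `s` of
`Gal(ℚ)` to the group `G = Γ_k` (the identity for `k = ℚ`, in general given by a rational point of a model
of `X` over a variety with function field `k`), such that for each `ℓ` there are three prime numbers
different from `ℓ` at which the restriction to `Gal(ℚ)` is pure, one of them with good reduction
(`ThreePrimes`, satisfied by Deligne's theorem if there is good reduction at four prime numbers).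

A polynomial `P` of degree `7` is `Generic` if its complex roots are simple, no quotient of two of them is a
root of unity, and no root `≠ 1` has a square which is a root.  The characteristic polynomial of an
automorphism of a cross product is `(X - 1) (X³ - t X² + t' X - 1) (X³ - t' X² + t X - 1)`, and
`crossDiscr P = (t - t')²` is a rational number which is computed from the coefficients.

**Theorem.** (1) Let `ℓ` be a prime number, and let `g₀`, `g₁`, `g₂` be elements of `Gal(ℚ)`, for example
Frobenius elements, with characteristic polynomials `P₀ = (X - 1) Q`, `P₁`, `P₂` on `T_ℓ` which are rational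
and generic, such that `Q` is irreducible over `ℚ_ℓ`, and `crossDiscr P₁ * crossDiscr P₂` is not a square in `ℚ_ℓ`.
Then `T_ℓ` is semisimple and absolutely irreducible for all subgroups of finite index, and the Lie algebra
of the `ℓ`-adic monodromy group (of all endomorphisms which kill all Tate tensors) is the Lie algebra of
type `G₂` of the derivations of the cross product: this is the Mumford-Tate conjecture for `T` at `ℓ` (the
equality of the Lie algebras, that is of the identity components).

(2) Suppose that the characteristic polynomials do not depend on `ℓ` (`Witness`): two elements `g`, `g'` of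
`Gal(ℚ)`, Frobenius elements, with generic polynomials `P`, `P' ∈ ℚ[X]`, and an automorphism `τ` of a
finite Galois extension `L` of `ℚ` which contains the roots of `P`, such that `τ` permutes the six roots
`≠ 1` of `P` transitively and moves a square root of `crossDiscr P * crossDiscr P'` (`L` is for example the
splitting field of `P P'`; if the Galois group of `P` is the Weyl group of `G₂`, of order `12`, `L` can be
taken of degree at most `24`).  Then the conclusion of (1) holds for a set of primes `ℓ` of lower density
at least `1 / [L : ℚ]`.

(3) If there are infinitely many such witnesses, with fields `L` of bounded degree which are not all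
contained in the same finite extension in the strong sense that for every number field `M` there is one
with `L ∩ M = ℚ`, then the conclusion of (1) holds for a set of primes `ℓ` of density one.

The Mumford-Tate conjecture for `H ^ 2` is known for K3 surfaces (Tankeev, André), for many varieties with
`p_g = 1` (André, Moonen), and products of them (Commelin); for a transcendental part of larger level the
library has results for orthogonal groups as large as the intersection form permits
(`OddOrthogonalPrimeDecides`, `IrreducibilityDecides` and others).  The results on orthogonal groups never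
apply to `G₂`: there is always the multiplicative relation `α β γ = 1` between Frobenius eigenvalues, and
there is a Tate tensor of degree three.

The proof.  The semisimplicity is our theorem `MP_8f1292_ag.GTwoValued` (six exponentials, cross products of
isotropic subspaces).  On the derivations of the cross product over `ℂ` a generic element acts with twelve
different eigenvalues `≠ 1`, none of them a root of unity, and multiplicity two for the eigenvalue `1`: it
is strongly regular in the sense of `MP_b8862a_ag.StronglyRegularFrobenius`.  By the theorem there (without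
any hypothesis on motives, as the derivations are defined by the two tensors of the cross product) the
monodromy Lie algebra `L` is the centralizer in `G₂` of the Tate endomorphisms up to its centre.  A Tate
endomorphism commutes with `g₀`; as `Q` is irreducible over `ℚ_ℓ`, it is a scalar, or the fixed line `k v`
of `g₀` is stable under a subgroup of finite index.  In the second case all generic elements `g` fix `v`,
and commute with the endomorphism `v ×`, and the trace of `(v ×) g` is a number in `ℚ_ℓ` with square
`- (v, v) (t - t')²`.  So `crossDiscr P₁ * crossDiscr P₂` is a square in `ℚ_ℓ`, against the hypothesis.  For (2) and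
(3) we use the theorems of Frobenius and Chebotarev, and the independence of the fields.
-/

set_option autoImplicit false

namespace Pool.Agent.Results.MP_6369ef_ag.GTwoTranscendental

open Polynomial Module NumberField Pool.Agent.H853.G2 Pool.Agent.W522.C

section defs

variable (G : Type) [Group G] [TopologicalSpace G]

/-- A system of `ℓ`-adic representations of `G` on `ℚ_ℓ ^ 7` by automorphisms of cross products, with a
rational point `s`, where the representations are pure at three primes. -/
structure CrossSystem where
  /-- the representations -/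
  ρ : ∀ (ℓ : ℕ) [Fact ℓ.Prime], G →* Matrix.GeneralLinearGroup (Fin 7) ℚ_[ℓ]
  /-- the symmetric forms -/
  J : ∀ (ℓ : ℕ) [Fact ℓ.Prime], Matrix (Fin 7) (Fin 7) ℚ_[ℓ]
  /-- the structure constants of the cross products -/
  c : ∀ (ℓ : ℕ) [Fact ℓ.Prime], Fin 7 → Fin 7 → Fin 7 → ℚ_[ℓ]
  /-- the rational point -/
  s : Gal(AlgebraicClosure ℚ/ℚ) →* G
  continuous : ∀ (ℓ : ℕ) [Fact ℓ.Prime], Continuous (ρ ℓ)
  continuous_s : Continuous s
  cross : ∀ (ℓ : ℕ) [Fact ℓ.Prime], IsCross (J ℓ) (c ℓ)
  preserves : ∀ (ℓ : ℕ) [Fact ℓ.Prime], Preserves (ρ ℓ) (c ℓ)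
  pure : ∀ (ℓ : ℕ) [Fact ℓ.Prime], ThreePrimes ℓ ((ρ ℓ).comp s)

variable {G} (R : CrossSystem G)

/-- The element `g` of `Gal(ℚ)` acts on the `ℓ`-adic representation with the characteristic polynomial
`P`. -/
def CrossSystem.HasPoly (ℓ : ℕ) [Fact ℓ.Prime] (g : Gal(AlgebraicClosure ℚ/ℚ)) (P : ℚ[X]) : Prop :=
  (R.ρ ℓ (R.s g) : Matrix (Fin 7) (Fin 7) ℚ_[ℓ]).charpoly = P.map (algebraMap ℚ ℚ_[ℓ])

/-- The Mumford-Tate conjecture at `ℓ`, for the group `G₂`: the representation is absolutely irreducible
under all subgroups of finite index, and the endomorphisms which kill all Tate tensors are the derivations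
of the cross product. -/
def CrossSystem.MumfordTate (ℓ : ℕ) [Fact ℓ.Prime] : Prop := IsTypeG2 (R.ρ ℓ) (R.c ℓ)

/-- The set of the primes `ℓ` for which the Mumford-Tate conjecture holds. -/
def CrossSystem.good : Set ℕ := {ℓ | ∃ h : ℓ.Prime, @CrossSystem.MumfordTate G _ _ R ℓ ⟨h⟩}

/-- Two elements with generic rational polynomials `P`, `P'` (independent of `ℓ`, outside of a finite set),
and an automorphism of a finite Galois extension of `ℚ` which is transitive on the roots `≠ 1` of `P` and
moves the square root of the product of the discriminants. -/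
structure Witness where
  /-- the first element -/
  g : Gal(AlgebraicClosure ℚ/ℚ)
  /-- the second element -/
  g' : Gal(AlgebraicClosure ℚ/ℚ)
  /-- the polynomial of the first element -/
  P : ℚ[X]
  /-- the polynomial of the second element -/
  P' : ℚ[X]
  /-- the factor of degree six -/
  Q : ℚ[X]
  /-- finitely many exceptional primes -/
  bad : Finset ℕ
  /-- the field -/
  L : IntermediateField ℚ ℂ
  /-- the automorphism -/
  τ : AG L
  /-- the square root -/
  w : L
  poly : ∀ (ℓ : ℕ) [Fact ℓ.Prime], ℓ ∉ bad → R.HasPoly ℓ g P ∧ R.HasPoly ℓ g' P'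
  generic : Generic P ∧ Generic P'
  factor : P = (X - 1) * Q
  finite : FiniteDimensional ℚ L
  galois : @IsGalois ℚ _ L _ (IntermediateField.algebra' L)
  roots : ∀ x : ℂ, aeval x P = 0 → x ∈ L
  transitive : ∀ x y : L, aeval (x : ℂ) Q = 0 → aeval (y : ℂ) Q = 0 → ∃ n : ℕ, (τ^[n]) x = y
  root : (w : ℂ) ^ 2 = ((crossDiscr P * crossDiscr P' : ℚ) : ℂ)
  moved : w ≠ 0 ∧ τ w = -w

end defs

variable {G : Type} [Group G] [TopologicalSpace G] [IsTopologicalGroup G] [CompactSpace G]
  (R : CrossSystem G)

theorem good_of_lift (W : Witness R) {ℓ : ℕ} [Fact ℓ.Prime] (hℓ : ℓ ∉ W.bad)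
    (h : Lifts (W.τ : W.L → W.L) ℓ) : R.MumfordTate ℓ := by
  have hQ : W.Q.Monic := by
    have h7 := (W.poly ℓ hℓ).1
    have h8 : (W.P.map (algebraMap ℚ ℚ_[ℓ])).Monic := by
      rw [← h7]
      exact Matrix.charpoly_monic _
    have h9 : W.P.Monic := (Polynomial.monic_map_iff).1 h8
    rw [W.factor] at h9
    have h10 : (X - 1 : ℚ[X]).Monic := by
      rw [← C_1]
      exact monic_X_sub_C 1
    exact h10.of_mul_monic_left h9
  have hQ1 : W.Q ≠ 1 := by
    intro h0
    have h7 := (W.poly ℓ hℓ).1
    have h8 := congrArg natDegree h7
    rw [W.factor, h0, mul_one, natDegree_map, Matrix.charpoly_natDegree_eq_dim,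
      Fintype.card_fin, ← C_1, natDegree_X_sub_C] at h8
    omega
  exact typeG2 (R.ρ ℓ) (R.continuous ℓ) (R.cross ℓ) (R.preserves ℓ) R.s R.continuous_s (R.pure ℓ)
    W.g W.g W.g' W.generic.1 W.generic.1 W.generic.2 (W.poly ℓ hℓ).1 (W.poly ℓ hℓ).1
    (W.poly ℓ hℓ).2 W.factor
    (irreducible_of_lift h W.generic.1.separable W.factor hQ hQ1 W.roots W.transitive)
    (nonsquare_of_lift h W.root W.moved.1 W.moved.2)

/-- **The Mumford-Tate conjecture for motives of type `G₂`**, at one prime, for a positive proportion, and
for `100` percent of the primes. -/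
theorem result :
    (∀ (ℓ : ℕ) [Fact ℓ.Prime] (g₀ g₁ g₂ : Gal(AlgebraicClosure ℚ/ℚ)) (P₀ P₁ P₂ Q : ℚ[X]),
      Generic P₀ → Generic P₁ → Generic P₂ →
      R.HasPoly ℓ g₀ P₀ → R.HasPoly ℓ g₁ P₁ → R.HasPoly ℓ g₂ P₂ →
      P₀ = (X - 1) * Q → Irreducible (Q.map (algebraMap ℚ ℚ_[ℓ])) →
      ¬ IsSquare (algebraMap ℚ ℚ_[ℓ] (crossDiscr P₁ * crossDiscr P₂)) → R.MumfordTate ℓ) ∧
    (∀ W : Witness R, LowerDensity R.good (1 / finrank ℚ W.L)) ∧
    ∀ (𝒲 : Set (Witness R)) (B : ℕ), (∀ W ∈ 𝒲, finrank ℚ W.L ≤ B) →
      (∀ M : IntermediateField ℚ ℂ, FiniteDimensional ℚ M → ∃ W ∈ 𝒲, W.L ⊓ M ≤ ⊥) →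
      LowerDensity R.good 1 := by
  refine ⟨fun ℓ _ g₀ g₁ g₂ P₀ P₁ P₂ Q h₀ h₁ h₂ e₀ e₁ e₂ hPQ hirr hd => ?_, fun W => ?_,
    fun 𝒲 B hB hdisj => ?_⟩
  · exact typeG2 (R.ρ ℓ) (R.continuous ℓ) (R.cross ℓ) (R.preserves ℓ) R.s R.continuous_s (R.pure ℓ)
      g₀ g₁ g₂ h₀ h₁ h₂ e₀ e₁ e₂ hPQ hirr hd
  · refine (density_oneV (J := Unit) (L := fun _ => W.L) (fun _ => W.τ) (fun _ => W.bad) ()
      W.finite W.galois).mono ?_
    rintro ℓ - ⟨hℓ, _, hbad, hlift⟩
    have : Fact ℓ.Prime := ⟨hℓ⟩
    exact ⟨hℓ, good_of_lift R W hbad hlift⟩
  · refine (density_familyV (J := 𝒲) (L := fun W => W.1.L) (fun W => W.1.τ) (fun W => W.1.bad)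
      (fun W => W.1.finite) (fun W => W.1.galois) (fun W => hB W.1 W.2) (fun M hM => ?_)).mono ?_
    · obtain ⟨W, hW, h⟩ := hdisj M hM
      exact ⟨⟨W, hW⟩, h⟩
    · rintro ℓ - ⟨hℓ, W, hbad, hlift⟩
      have : Fact ℓ.Prime := ⟨hℓ⟩
      exact ⟨hℓ, good_of_lift R W.1 hbad hlift⟩

end Pool.Agent.Results.MP_6369ef_ag.GTwoTranscendental
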