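import Pool.Agent.H851.UK.Lie

/-!
# The `ℓ`-adic monodromy of the Kuga-Satake part of an abelian variety

Let `V` be the second cohomology of a smooth projective variety `X` over a number field `K` with `h^{2,0} = 1`
(or any motive of K3 type) and `W = H^1(A)` for an abelian variety `A` over `K` of any dimension, in `ℓ`-adic
cohomology. We assume that `V` is semisimple, and that its Tate endomorphisms (those which commute with an open
subgroup of the Galois group) are scalars on the transcendental part `T`, the orthogonal complement of the Tate
classes, with `d = dim T ≥ 3` odd. The identity component of the `ℓ`-adic monodromy group of `V(1)` is `SO(T)`. By an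
earlier theorem (the Kuga-Satake dichotomy) there is a part `P W` of `W`, the Kuga-Satake part, which is a module of
the even Clifford algebra `C⁺(T)` in an equivariant way, and is zero if and only if `V(1)` and `W` are independent.
What is the monodromy group of `P W`? On the Hodge side the Mumford-Tate group of the Kuga-Satake variety is, by its
construction, the group `GSpin(T)`; but `A` is an arbitrary abelian variety, and the monodromy group of `W` could
contain other factors which act on `P W`, as nothing is known on the Mumford-Tate group of `A`.

**Theorem.** The Lie algebra of the `ℓ`-adic monodromy group of `V(1) ⊕ W` contains, for `x` and `y` in `T`, the pairs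
`(x ∧ y, (q(x, y) P - ψ(x, y)) / 2)`, and for all pairs `(X, Y)` in it the operator `Y P` is a linear combination of
the products `ψ(x, y)` of two vectors of `T`.

So the Lie algebra of the monodromy group of `P W` is between `so(T)` and `gspin(T) = ℚ_ℓ ⊕ so(T)`, which is the span
of the products of two vectors in `C⁺(T)`, and it is the latter because the homotheties are in it (Bogomolov). This
is what the Mumford-Tate conjecture predicts for `P W`, and so for the second cohomology of an abelian variety
`B` with the first cohomology `P W`, which is contained in `Λ² P W` (for `B`, and for its powers). In particular the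
Lie algebra of the monodromy group of `B × X` is that of `B`, and `V(1)` is in the tensor category generated
by `H^1(B)`.

The proof. Let `b` be an endomorphism of `P W` which commutes with `C⁺(T)`. At a place of degree one where `V` is
ordinary, the valuations of the eigenvalues of the Frobenius element define an operator `N` of `W`, over the algebraic
closure of `ℚ_ℓ`, whose action on `T` is given by a hyperbolic plane `v, v'`. As the slopes of `W` are between `0`
and `1`, one has `N P = (j - 1) P + ψ(v, v') / 2`; hence `N` commutes with `b`. This is so for all places of the
algebraic closure of `ℚ`. So the eigenvalues of the Frobenius element for its action on the space of all such `b` are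
roots of unity, and by density an open subgroup of the Galois group acts unipotently, and trivially since `W` is
semisimple: `b` is a Tate endomorphism. Therefore the Lie algebra commutes with `b`. For `(X, Y)` in the Lie algebra
there is a combination `Z` of the products with `[Z, ψ(u, v)] = ψ(X u, v) + ψ(u, X v) = [Y, ψ(u, v)]`, and `Y P - Z`
commutes with `C⁺(T)` and with its commutant. In odd dimension these generate `End(P W)`, and so `Y P - Z` is a
scalar, which is a combination of the products, too.

The facts on `V` which are used are collected in the structure `IsK3Type`: at almost all primes `p` and places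
of degree one above `p` the characteristic polynomial of the Frobenius element is monic with integral
coefficients, with zeros of absolute value `p`, and its Newton polygon lies above the Hodge polygon. The matrix
`tw χ ρ g = χ(g)⁻¹ ρ(g)` is the action on `V(1)`, as `χ` is the inverse of the cyclotomic character. For `W` it
is only used that it is continuous and semisimple and that Frobenius elements are zeros of integral polynomials
of weight one (`WeightOneAt`).
-/

set_option autoImplicit false

namespace Pool.Agent.Results.MP_6369ef_ag.KugaSatakeMonodromy

open Polynomial NumberField IsDedekindDomain Matrix Module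
open Pool.Agent.H851.K3
open Pool.Agent.H851.TT (ScalarEnds)
open Pool.Agent.H851.KD (Independent IsKugaSatake LieOf)
open Pool.Agent.H851.UK (WeightOneAt ActsThroughProducts)
open Pool.Agent.NH56.HY (GK)

/-- **The Lie algebra of the Kuga-Satake part.** `ρ` is the action of the Galois group of `K` on `V = ℚ_ℓ ^ n`,
`q` the form, `χ` the inverse of the cyclotomic character, and `σ` the action on `W = ℚ_ℓ ^ m`. -/
theorem result {K : Type} [Field K] [NumberField K] {ℓ : ℕ} [Fact ℓ.Prime] {n : Type} [Fintype n]
    [DecidableEq n] {q : Matrix n n ℚ_[ℓ]} {S : Finset ℕ} {χ : GK K →* ℚ_[ℓ]}
    {Pol : HeightOneSpectrum (𝓞 K) → ℤ[X]} {ρ : GK K →* Matrix n n ℚ_[ℓ]} {m : Type} [Fintype m]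
    [DecidableEq m] {σ : GK K →* Matrix m m ℚ_[ℓ]} {j : ℤ}
    (h : IsK3Type q S χ Pol ρ) (hss : Semisimple ρ) (hc : ScalarEnds q χ ρ)
    (hd : 3 ≤ finrank ℚ_[ℓ] (orth q (tate χ ρ)))
    (hodd : Odd (finrank ℚ_[ℓ] (orth q (tate χ ρ)))) (hw : WeightOneAt j σ) :
    ∃ (P : Matrix m m ℚ_[ℓ]) (ψ : (n → ℚ_[ℓ]) → (n → ℚ_[ℓ]) → Matrix m m ℚ_[ℓ]),
      IsKugaSatake q χ ρ σ ⊤ P ψ ∧ (P = 0 ↔ Independent χ ρ σ) ∧ LieOf q χ ρ σ P ψ ∧
        ActsThroughProducts q χ ρ σ P ψ :=
  Pool.Agent.H851.UK.lie_main h hss hc hd hodd hw

end Pool.Agent.Results.MP_6369ef_ag.KugaSatakeMonodromy
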