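import Pool.Agent.H851.KL.Pub

/-!
# One place decides that `H²` with `h^{2,0} = 1` is independent of any other motive

Let `X` be a smooth projective variety over a number field `K` with `h^{2,0} = 1`, `ℓ` a prime number and
`V = H^2(X, ℚ_ℓ)` with its form `q`; more generally `V` is the `ℓ`-adic realization of a pure motive over `K` with the
Hodge numbers `(1, b - 2, 1)`, after a twist. Assume that `V` is semisimple and that the Tate endomorphisms are
scalars on the transcendental part `T`, the orthogonal complement of the Tate classes, of dimension `d`, where
`d ≥ 3` and `d ≠ 4`. So the Lie algebra of the `ℓ`-adic monodromy group of `V(1)` is `so(T)`, by the results of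
`Pool.Agent.Results.MP_b8862a_ag.KThreeEndomorphisms`.

Let `W` be ANY second semisimple representation of the Galois group of `K` over `ℚ_ℓ`, for example the cohomology of
any variety `Y` over `K` in any degree. How can one prove that the Lie algebra of the
monodromy group of `V(1) ⊕ W` contains `so(T) × 0`, that is, that `V(1)` and `W` are independent? By Goursat's lemma
one has to exclude that the simple Lie algebra `so(T)` occurs in the Lie algebra of `W`, through `W`. We prove that it is
enough to look at the two Frobenius polynomials at ONE place.

**Theorem.** Let `v` be one place of degree one, over a prime number `p` which is not in the finite set `S` of excluded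
primes of `V`. Assume that `V` is not supersingular at `v`: it has a slope which is not equal to one. Assume that a
product of a power of `p` and the geometric Frobenius element is on `W` a zero of a monic polynomial with integral
coefficients, and that two slopes of this polynomial never differ by a slope `s + t - 2 ≠ 0` of `Λ² V(1)` (`s`, `t`
slopes of `V`). Then `V(1)` and `W` are independent:

(1) For all elements `X` of the Lie algebra of `V(1)`, the operator `(X, 0)` kills all Tate tensors of
`V(1) ⊕ W` and preserves all subspaces of `V(1) ⊕ W` which are stable under a subgroup of finite index.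

(2) Every form on `V(1) ^ A × W ^ B` which is invariant under an open subgroup is a linear combination of
products of forms on `V(1) ^ A` and forms on `W ^ B` which are invariant under open subgroups.

For example, if `X` is ordinary at `v` (slopes `0, 1, ..., 1, 2`) then the condition on `W` is that two slopes of `W`
at `v` do not differ by one; it holds if `W` is supersingular at `v` (only one slope), or `W = H^1(A)` for an
abelian variety `A` of `p`-rank zero at `v`, of any dimension, or `W = H^2(Y)` whose slopes at `v` are in the open
interval `(1/2, 3/2)`, or `W = H^i(Y)` for any `Y` which is supersingular in degree `i` at `v`. If `X` has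
the finite height `h` at `v`, then two slopes of `W` may not differ by `1/h` or `2/h`; this holds if `W` is ordinary at
`v` (integral slopes) and `h ≥ 3`.

In the case of `W = H^2(Y)(1)` with `b_1(X) = 0` this concerns `H^2(X × Y) = H^2(X) ⊕ H^2(Y)`: if at one place `v`
the second cohomology of `Y` is supersingular and that of `X` is not, then all Tate classes in all tensor constructions
of `H^2(X × Y)(1)` come from `X` and from `Y` (the forms `q` give the duals). By the theorem the `ℓ`-adic monodromy group
of `H^2(X × Y)(1)` contains the subgroup `SO(T) × 1`; so the rational form of the Mumford-Tate conjecture for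
`H^2(X × Y)` (in the version of Q1 with `ℚ_ℓ` in place of `ℤ_ℓ`) follows from those for `H^2(X)` and `H^2(Y)`, for each `Y`.

The proof. The `p`-adic valuations of the eigenvalues of the Frobenius element, for a suitable embedding of the field of
algebraic numbers, define an element `N` of the Lie algebra of the monodromy group of `V(1) ⊕ W` over the algebraic
closure of `ℚ_ℓ`: it acts on the eigenspaces of the Frobenius element as their slopes. Assume that `V(1)` and `W` are not
independent. As `so(T)` is simple (`d ≠ 4`) and `V(1) ⊕ W` is semisimple, there is an ideal of the Lie algebra which is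
mapped isomorphically to `so(T)`, and which acts on `W` faithfully. Let `x` and `y` be eigenvectors of
the Frobenius element in `T`, of slopes `s`, `t`, with `s + t ≠ 2`, which are not proportional. The element `x ∧ y` of
`so(T)` is an eigenvector of the adjoint action of `N`, with the eigenvalue `s + t - 2`, up to the sign. So the
operator on `W` which corresponds to it is not zero and changes the slopes of `W` by `s + t - 2`. This contradicts
the assumption. So all such vectors are proportional; since there is a slope which is not one, `T` has dimension at
most two, a contradiction.

The facts on `V` which are used are collected in the structure `IsK3Type`: at almost all primes `p` and places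
of degree one above `p` the characteristic polynomial of the Frobenius element is monic with integral coefficients,
with zeros of absolute value `p` (Weil conjectures), and its Newton polygon lies above the Hodge polygon (Mazur). The
matrix `tw χ ρ g = χ(g)⁻¹ ρ(g)` is the action on `V(1)`, as `χ` is the inverse of the cyclotomic character. No purity,
no continuity, no form, and nothing at the other places is assumed for `W`.
-/

set_option autoImplicit false

namespace Pool.Agent.Results.MP_6369ef_ag.OnePlaceIndependence

open Polynomial NumberField IsDedekindDomain Module
open Pool.Agent.H851.K3
open Pool.Agent.H851.TT (ScalarEnds)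
open Pool.Agent.H851.IN (Splits MixInv prodForms)
open Pool.Agent.H851.KL (ApartAt)
open Pool.Agent.NH56.HY (GK tw)

/-- **One place decides independence.** `ρ` is the action of the Galois group of `K` on `V = ℚ_ℓ ^ n`, `q` the form,
`χ` the inverse of the cyclotomic character, `σ` the action on `W = ℚ_ℓ ^ m`. (1) is `Splits`. A form on
`V ^ A × W ^ B` is given by its coordinates. -/
theorem result {K : Type} [Field K] [NumberField K] {ℓ : ℕ} [Fact ℓ.Prime] {n : Type} [Fintype n]
    [DecidableEq n] {q : Matrix n n ℚ_[ℓ]} {S : Finset ℕ} {χ : GK K →* ℚ_[ℓ]}
    {Pol : HeightOneSpectrum (𝓞 K) → ℤ[X]} {ρ : GK K →* Matrix n n ℚ_[ℓ]}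
    (h : IsK3Type q S χ Pol ρ) (hss : Semisimple ρ) (hsc : ScalarEnds q χ ρ)
    (hd3 : 3 ≤ finrank ℚ_[ℓ] (orth q (tate χ ρ))) (hd4 : finrank ℚ_[ℓ] (orth q (tate χ ρ)) ≠ 4)
    {m : Type} [Fintype m] [DecidableEq m] (σ : GK K →* Matrix m m ℚ_[ℓ]) (hσs : Semisimple σ)
    {p : ℕ} [Fact p.Prime] (hp : p ∉ S) {v : HeightOneSpectrum (𝓞 K)} (hσ : ApartAt Pol σ v p) :
    Splits χ ρ σ ∧
    ∀ (A B : Type) [Fintype A] [DecidableEq A] [Fintype B] [DecidableEq B]
      (F : (A → n) → (B → m) → ℚ_[ℓ]), MixInv (tw χ ρ) σ F → F ∈ prodForms (tw χ ρ) σ A B := by
  have h1 : Splits χ ρ σ := Pool.Agent.H851.KL.splits_of_apart h hss hsc hd3 hd4 hσs hp hσ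
  exact ⟨h1, fun A B _ _ _ _ F hF => Pool.Agent.H851.IN.mix_main h hss h1 hF⟩

end Pool.Agent.Results.MP_6369ef_ag.OnePlaceIndependence
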